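import Pool.Agent.Lib.MP_776403_ag.SD.G.Spec
import Pool.Agent.Lib.MP_776403_ag.SD.Bas

/-!
# THEOREM H, `S_GReg`: regular functions are forms (depth at least two)
-/

set_option autoImplicit false

open MvPolynomial

noncomputable section

namespace Pool.Agent.Lib.MP_776403_ag.SD

namespace GRegAux

variable {N : ℕ}

theorem lin_zero_form {F : Sx N} {m : ℕ} (hF : F.IsHomogeneous m) (z : Vx N) :
    lin 0 z F = Polynomial.C (eval z F) * Polynomial.X ^ m := by
  refine poly_ext fun t => ?_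
  rw [lin_eval, zero_add, eval_smul_form hF, Polynomial.eval_mul, Polynomial.eval_C,
    Polynomial.eval_pow, Polynomial.eval_X, mul_comm]

theorem lin_zero_coeff (z : Vx N) (F : Sx N) (m : ℕ) :
    (lin 0 z F).coeff m = eval z (homogeneousComponent m F) := by
  have h1 : lin 0 z F = ∑ i ∈ Finset.range (F.totalDegree + 1),
      Polynomial.C (eval z (homogeneousComponent i F)) * Polynomial.X ^ i := by
    conv_lhs => rw [← sum_homogeneousComponent F]
    rw [map_sum]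
    exact Finset.sum_congr rfl fun i _ => lin_zero_form (homogeneousComponent_isHomogeneous i F) z
  rw [h1, Polynomial.finsetSum_coeff]
  by_cases hm : m ∈ Finset.range (F.totalDegree + 1)
  · rw [Finset.sum_eq_single_of_mem m hm]
    · rw [Polynomial.coeff_C_mul, Polynomial.coeff_X_pow_self, mul_one]
    · intro i _ hi
      rw [Polynomial.coeff_C_mul, Polynomial.coeff_X_pow, if_neg hi.symm, mul_zero]
  · rw [Finset.sum_eq_zero]
    · rw [homogeneousComponent_eq_zero, map_zero]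
      rw [Finset.mem_range] at hm
      lia
    · intro i hi
      have hne : m ≠ i := fun h => hm (h ▸ hi)
      rw [Polynomial.coeff_C_mul, Polynomial.coeff_X_pow, if_neg hne, mul_zero]

theorem lin_zero_mem {I : Ideal (Sx N)} (hI : IsHom I) {z : Vx N} (hz : z ∈ zer I) {F : Sx N}
    (hF : F ∈ I) : lin 0 z F = 0 := by
  refine Polynomial.ext fun m => ?_
  rw [lin_zero_coeff, Polynomial.coeff_zero]
  exact hz _ (hI F hF m)

theorem smul_zer {I : Ideal (Sx N)} (hI : IsHom I) {z : Vx N} (hz : z ∈ zer I) (a : ℂ) :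
    a • z ∈ zer I := by
  intro F hF
  have h := lin_eval 0 z F a
  rw [lin_zero_mem hI hz hF, Polynomial.eval_zero, zero_add] at h
  exact h.symm

theorem poly_ext' {p q : Polynomial ℂ} (h : ∀ t : ℂ, t ≠ 0 → p.eval t = q.eval t) : p = q := by
  have h1 : p * Polynomial.X = q * Polynomial.X := by
    refine poly_ext fun t => ?_
    rw [Polynomial.eval_mul, Polynomial.eval_mul, Polynomial.eval_X]
    by_cases ht : t = 0
    · rw [ht, mul_zero, mul_zero]
    · rw [h t ht]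
  exact mul_right_cancel₀ Polynomial.X_ne_zero h1

theorem f_smul {I : Ideal (Sx N)} (hI : IsHom I) {k : ℕ} {f : Vx N → ℂ} (hf : IsReg I k f)
    {z : Vx N} (hz : z ∈ zer I) (h0 : z ≠ 0) {a : ℂ} (ha : a ≠ 0) :
    f (a • z) = a ^ k * f z := by
  obtain ⟨P, Q, e, hP, hQ, hQz, h⟩ := hf.2 z hz h0
  have h1 := h z hz h0
  have h2 := h (a • z) (smul_zer hI hz a) (smul_ne_zero ha h0)
  rw [eval_smul_form hP, eval_smul_form hQ, ← h1] at h2
  have h3 : a ^ e * eval z Q ≠ 0 := mul_ne_zero (pow_ne_zero _ ha) hQz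
  refine mul_right_cancel₀ h3 ?_
  rw [h2, pow_add]
  ring

/-- Components of a quotient expression. -/
theorem comp_expr {I : Ideal (Sx N)} (hI : IsHom I) {k : ℕ} {f : Vx N → ℂ} (hf : IsReg I k f)
    {G A : Sx N} {ρ : ℕ} (hG : G.IsHomogeneous ρ)
    (hA : ∀ z ∈ zer I, z ≠ 0 → eval z G * f z = eval z A) :
    ∀ z ∈ zer I, z ≠ 0 → eval z G * f z = eval z (homogeneousComponent (ρ + k) A) := by
  intro z hz h0
  have h1 : Polynomial.C (eval z G * f z) * Polynomial.X ^ (ρ + k) = lin 0 z A := by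
    refine poly_ext' fun a ha => ?_
    rw [lin_eval, zero_add, ← hA (a • z) (smul_zer hI hz a) (smul_ne_zero ha h0),
      f_smul hI hf hz h0 ha, eval_smul_form hG, Polynomial.eval_mul, Polynomial.eval_C,
      Polynomial.eval_pow, Polynomial.eval_X, pow_add]
    ring
  rw [← lin_zero_coeff, ← h1, Polynomial.coeff_C_mul, Polynomial.coeff_X_pow_self, mul_one]

/-- The denominators of `f`. -/
def den (I : Ideal (Sx N)) (f : Vx N → ℂ) : Ideal (Sx N) where
  carrier := {G | ∃ A : Sx N, ∀ z ∈ zer I, z ≠ 0 → eval z G * f z = eval z A}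
  zero_mem' := ⟨0, fun z _ _ => by rw [map_zero, zero_mul]⟩
  add_mem' := by
    rintro G G' ⟨A, hA⟩ ⟨A', hA'⟩
    exact ⟨A + A', fun z hz h0 => by
      rw [map_add, map_add, add_mul, hA z hz h0, hA' z hz h0]⟩
  smul_mem' := by
    rintro c G ⟨A, hA⟩
    exact ⟨c * A, fun z hz h0 => by
      rw [smul_eq_mul, map_mul, map_mul, mul_assoc, hA z hz h0]⟩

theorem den_zer {I : Ideal (Sx N)} {k : ℕ} {f : Vx N → ℂ} (hf : IsReg I k f) :
    ∀ z ∈ zer (den I f), z = 0 := by
  intro z hz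
  by_contra h0
  have hzI : z ∈ zer I := fun F hF => hz F ⟨0, fun w hw _ => by
    rw [hw F hF, zero_mul, map_zero]⟩
  obtain ⟨P, Q, e, -, -, hQz, h⟩ := hf.2 z hzI h0
  refine hQz (hz Q ⟨P, fun w hw hw0 => ?_⟩)
  rw [mul_comm]
  exact h w hw hw0

theorem pow_reg {I : Ideal (Sx N)} {l0 l1 : Sx N} (r0 : ∀ F, l0 * F ∈ I → F ∈ I)
    (r1 : ∀ F, l1 * F ∈ I ⊔ Ideal.span {l0} → F ∈ I ⊔ Ideal.span {l0}) (ρ : ℕ) :
    ∀ F, l1 * F ∈ I ⊔ Ideal.span {l0 ^ ρ} → F ∈ I ⊔ Ideal.span {l0 ^ ρ} := by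
  induction ρ with
  | zero =>
    intro F _
    rw [pow_zero, Ideal.span_singleton_one, sup_top_eq]
    exact Submodule.mem_top
  | succ ρ ih =>
    intro F hF
    obtain ⟨j, hj, w, hw, hjw⟩ := Submodule.mem_sup.1 hF
    obtain ⟨c, rfl⟩ := Ideal.mem_span_singleton'.1 hw
    have h1 : l1 * F ∈ I ⊔ Ideal.span {l0} := by
      rw [← hjw]
      refine Submodule.add_mem _ (Ideal.mem_sup_left hj) (Ideal.mem_sup_right ?_)
      exact Ideal.mem_span_singleton'.2 ⟨c * l0 ^ ρ, by rw [pow_succ]; ring⟩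
    obtain ⟨i, hi, w', hw', hiw⟩ := Submodule.mem_sup.1 (r1 F h1)
    obtain ⟨x, rfl⟩ := Ideal.mem_span_singleton'.1 hw'
    have h2 : l0 * (l1 * x - c * l0 ^ ρ) ∈ I := by
      have h3 : l0 * (l1 * x - c * l0 ^ ρ) = j - l1 * i := by
        have h4 : l1 * (i + x * l0) = j + c * l0 ^ (ρ + 1) := by rw [hiw, hjw]
        rw [pow_succ] at h4
        linear_combination h4
      rw [h3]
      exact I.sub_mem hj (I.mul_mem_left _ hi)
    have h3 : l1 * x ∈ I ⊔ Ideal.span {l0 ^ ρ} := by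
      have h4 : l1 * x = (l1 * x - c * l0 ^ ρ) + c * l0 ^ ρ := by ring
      rw [h4]
      exact Submodule.add_mem _ (Ideal.mem_sup_left (r0 _ h2))
        (Ideal.mem_sup_right (Ideal.mem_span_singleton'.2 ⟨c, rfl⟩))
    obtain ⟨i', hi', w'', hw'', hiw'⟩ := Submodule.mem_sup.1 (ih x h3)
    obtain ⟨c', rfl⟩ := Ideal.mem_span_singleton'.1 hw''
    have h4 : F = (i + l0 * i') + c' * l0 ^ (ρ + 1) := by
      rw [← hiw, ← hiw', pow_succ]
      ring
    rw [h4]
    exact Submodule.add_mem _ (Ideal.mem_sup_left (I.add_mem hi (I.mul_mem_left _ hi')))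
      (Ideal.mem_sup_right (Ideal.mem_span_singleton'.2 ⟨c', rfl⟩))

theorem pow_reg' {J : Ideal (Sx N)} {l1 : Sx N} (r1 : ∀ F, l1 * F ∈ J → F ∈ J) (m : ℕ) :
    ∀ F, l1 ^ m * F ∈ J → F ∈ J := by
  induction m with
  | zero =>
    intro F hF
    rwa [pow_zero, one_mul] at hF
  | succ m ih =>
    intro F hF
    rw [pow_succ, mul_assoc] at hF
    exact r1 F (ih _ hF)

theorem mainC (hD : S_D6') (hN : S_Null) {I : Ideal (Sx N)} (hP : I.IsPrime) (hI : IsHom I)
    (hne : ∃ y ∈ zer I, y ≠ 0) {l0 l1 : Sx N} (hl0 : l0.IsHomogeneous 1)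
    (hl1 : l1.IsHomogeneous 1) (r0 : ∀ F, l0 * F ∈ I → F ∈ I)
    (r1 : ∀ F, l1 * F ∈ I ⊔ Ideal.span {l0} → F ∈ I ⊔ Ideal.span {l0})
    {k : ℕ} {f : Vx N → ℂ} (hf : IsReg I k f) :
    ∃ C : Sx N, C.IsHomogeneous k ∧ ∀ z ∈ zer I, z ≠ 0 → f z = eval z C := by
  have hNull := (hN N I hP hI).2 hne
  obtain ⟨ρ, hρ⟩ := hD N (den I f) (den_zer hf)
  have hp0 : (l0 ^ ρ).IsHomogeneous ρ := by
    have h := hl0.pow ρ
    rwa [one_mul] at h
  have hp1 : (l1 ^ ρ).IsHomogeneous ρ := by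
    have h := hl1.pow ρ
    rwa [one_mul] at h
  obtain ⟨A', hA'⟩ := hρ ρ le_rfl _ hp0
  obtain ⟨B', hB'⟩ := hρ ρ le_rfl _ hp1
  have hA := comp_expr hI hf hp0 hA'
  have hB := comp_expr hI hf hp1 hB'
  have hAh := homogeneousComponent_isHomogeneous (ρ + k) A'
  have hBh := homogeneousComponent_isHomogeneous (ρ + k) B'
  generalize homogeneousComponent (ρ + k) A' = A at hA hAh
  generalize homogeneousComponent (ρ + k) B' = B at hB hBh
  have h1 : l1 ^ ρ * A - l0 ^ ρ * B ∈ I := by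
    refine hNull _ (ρ + (ρ + k)) ((hp1.mul hAh).sub (hp0.mul hBh)) fun z hz h0 => ?_
    rw [map_sub, map_mul, map_mul, ← hA z hz h0, ← hB z hz h0]
    ring
  have h2 : l1 ^ ρ * A ∈ I ⊔ Ideal.span {l0 ^ ρ} := by
    have h3 : l1 ^ ρ * A = (l1 ^ ρ * A - l0 ^ ρ * B) + B * l0 ^ ρ := by ring
    rw [h3]
    exact Submodule.add_mem _ (Ideal.mem_sup_left h1)
      (Ideal.mem_sup_right (Ideal.mem_span_singleton'.2 ⟨B, rfl⟩))
  have h3 := pow_reg' (pow_reg r0 r1 ρ) ρ A h2
  obtain ⟨i, hi, w, hw, hiw⟩ := Submodule.mem_sup.1 h3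
  obtain ⟨c, rfl⟩ := Ideal.mem_span_singleton'.1 hw
  have hC : ∀ z ∈ zer I, z ≠ 0 →
      eval z (l0 ^ ρ) * f z = eval z (l0 ^ ρ) * eval z (homogeneousComponent k c) := by
    intro z hz h0
    have h4 : lin 0 z A = lin 0 z c * lin 0 z (l0 ^ ρ) := by
      rw [← hiw, map_add, lin_zero_mem hI hz hi, zero_add, map_mul]
    rw [lin_zero_form hAh, lin_zero_form hp0] at h4
    have h5 := congrArg (fun p => Polynomial.coeff p (k + ρ)) h4
    rw [← mul_assoc, Polynomial.coeff_mul_X_pow, Polynomial.coeff_mul_C, lin_zero_coeff,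
      add_comm k ρ, Polynomial.coeff_C_mul, Polynomial.coeff_X_pow_self, mul_one] at h5
    rw [hA z hz h0, h5, mul_comm]
  have hl0I : l0 ∉ I := by
    intro h
    refine hP.ne_top ((Ideal.eq_top_iff_one _).2 (r0 1 ?_))
    rwa [mul_one]
  refine ⟨homogeneousComponent k c, homogeneousComponent_isHomogeneous k c, ?_⟩
  have hCh := homogeneousComponent_isHomogeneous k c
  generalize homogeneousComponent k c = D at hC hCh
  intro y hy hy0
  obtain ⟨P, Q, e, hPh, hQh, hQy, h⟩ := hf.2 y hy hy0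
  have h4 : l0 ^ ρ * (P - Q * D) ∈ I := by
    refine hNull _ (ρ + (e + k)) (hp0.mul (hPh.sub (hQh.mul hCh))) fun z hz h0 => ?_
    rw [map_mul, map_sub, map_mul, ← h z hz h0]
    linear_combination eval z Q * hC z hz h0
  have h5 : P - Q * D ∈ I := by
    rcases hP.mem_or_mem h4 with h6 | h6
    · exact absurd (hP.mem_of_pow_mem _ h6) hl0I
    · exact h6
  have h6 := hy _ h5
  rw [map_sub, map_mul, ← h y hy hy0] at h6
  refine mul_right_cancel₀ hQy ?_
  linear_combination h6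

theorem fin_gr (I : Ideal (Sx N)) (m : ℕ) : Module.Finite ℂ (gr I m) := by
  have h : (homogeneousSubmodule (Fin (N + 1)) ℂ m).FG := homogeneousSubmodule_fg _ _ m
  exact Module.Finite.iff_fg.mpr (h.map _)

theorem bound {I : Ideal (Sx N)} {k : ℕ}
    (hC : ∀ f : Vx N → ℂ, IsReg I k f → ∃ C : Sx N, C.IsHomogeneous k ∧
      ∀ z ∈ zer I, z ≠ 0 → f z = eval z C) {r : ℕ} {f : Fin r → (Vx N → ℂ)}
    (hf : ∀ i, IsReg I k (f i)) (hli : LinearIndependent ℂ f) :
    r ≤ Module.finrank ℂ (gr I k) := by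
  choose C hCh hCv using fun i => hC (f i) (hf i)
  have := fin_gr I k
  let v : Fin r → gr I k := fun i =>
    ⟨Ideal.Quotient.mk I (C i), ⟨C i, (mem_homogeneousSubmodule k (C i)).2 (hCh i), rfl⟩⟩
  have hv : LinearIndependent ℂ v := by
    rw [Fintype.linearIndependent_iff] at hli ⊢
    intro g hg
    refine hli g ?_
    have h1 : (∑ i, g i • C i) ∈ I := by
      rw [← Ideal.Quotient.eq_zero_iff_mem]
      have h2 := congrArg Subtype.val hg
      rw [Submodule.coe_sum] at h2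
      rw [map_sum]
      exact h2
    funext z
    rw [Finset.sum_apply, Pi.zero_apply]
    by_cases hz : z ∈ zer I ∧ z ≠ 0
    · have h2 := hz.1 _ h1
      rw [map_sum] at h2
      refine Eq.trans (Finset.sum_congr rfl fun i _ => ?_) h2
      rw [Pi.smul_apply, hCv i z hz.1 hz.2, smul_eval, smul_eq_mul]
    · refine Finset.sum_eq_zero fun i _ => ?_
      have h3 : z ∉ zer I ∨ z = 0 := by
        by_cases h : z ∈ zer I
        · right
          by_contra h0
          exact hz ⟨h, h0⟩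
        · exact Or.inl h
      rw [Pi.smul_apply, (hf i).1 z h3, smul_zero]
  have h := hv.fintype_card_le_finrank
  rwa [Fintype.card_fin] at h

end GRegAux

open GRegAux in
/-- Regular functions are forms. -/
theorem gReg : S_D6' → S_Null → S_GReg := by
  intro hD hN N n s I l hn hP hI hne hA
  obtain ⟨m, rfl⟩ : ∃ m, n = m + 1 := ⟨n - 1, by lia⟩
  have r0 : ∀ F, l 0 * F ∈ I → F ∈ I := by
    intro F hF
    have h := hA.reg 0 F
    have h1 : {j : Fin (m + 1 + 1) | j < 0} = ∅ := by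
      ext j
      simp
    rw [h1, Set.image_empty, Ideal.span_empty, sup_bot_eq] at h
    exact h hF
  have r1 : ∀ F, l 1 * F ∈ I ⊔ Ideal.span {l 0} → F ∈ I ⊔ Ideal.span {l 0} := by
    intro F hF
    have h := hA.reg 1 F
    have h1 : {j : Fin (m + 1 + 1) | j < 1} = {0} := by
      ext j
      simp
    rw [h1, Set.image_singleton] at h
    exact h hF
  have hC : ∀ (k : ℕ) (f : Vx N → ℂ), IsReg I k f → ∃ C : Sx N, C.IsHomogeneous k ∧
      ∀ z ∈ zer I, z ≠ 0 → f z = eval z C := fun k f hf =>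
    mainC hD hN hP hI hne (hA.lin 0) (hA.lin 1) r0 r1 hf
  exact ⟨hC, fun k r f hf hli => bound (hC k) hf hli⟩

end Pool.Agent.Lib.MP_776403_ag.SD
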