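import Pool.Agent.Lib.MP_776403_ag.SD.G.Spec2
import Pool.Agent.Lib.MP_776403_ag.SD.Bas

/-!
# THEOREM H, part G: the cones of lines on an arithmetically Cohen-Macaulay variety
-/

set_option autoImplicit false

open MvPolynomial

noncomputable section

namespace Pool.Agent.Lib.MP_776403_ag.SD

namespace GAcmAux

variable {N : ℕ}

/-- Two independent coordinates: the zero set is not contained in a line. -/
theorem exists_indep (hN : S_Null) (P : Ideal (Sx N)) (hP : P.IsPrime) (hH : IsHom P)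
    (hD : DimGe P 2) (y : Vx N) (hy : y ≠ 0) : ∃ v ∈ zer P, LinearIndependent ℂ ![y, v] := by
  by_contra hcon
  have hall : ∀ v ∈ zer P, ∃ a : ℂ, a • y = v := by
    intro v hv
    by_contra h
    refine hcon ⟨v, hv, (LinearIndependent.pair_iff' hy).2 fun a ha => h ⟨a, ha⟩⟩
  obtain ⟨i, hi⟩ := hD
  have hnul := (hN N P hP hH).1
  have hmem : (C (y (i 0)) * X (i 1) - C (y (i 1)) * X (i 0) : Sx N) ∈ P := by
    refine hnul _ fun z hz => ?_
    obtain ⟨a, rfl⟩ := hall z hz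
    simp only [map_sub, map_mul, eval_C, eval_X, Pi.smul_apply, smul_eq_mul]
    ring
  have hrel : (C (y (i 0)) * X 1 - C (y (i 1)) * X 0 : MvPolynomial (Fin 2) ℂ) = 0 := by
    refine (algebraicIndependent_iff.1 hi) _ ?_
    have h1 := Ideal.Quotient.eq_zero_iff_mem.2 hmem
    rw [map_sub, map_mul, map_mul] at h1
    rw [map_sub, map_mul, map_mul, aeval_X, aeval_X, aeval_C, aeval_C]
    exact h1
  have h0 : y (i 0) = 0 := by
    have h2 := congrArg (eval (![0, 1] : Fin 2 → ℂ)) hrel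
    rw [map_sub, map_mul, map_mul, eval_C, eval_C, eval_X, eval_X, map_zero] at h2
    simpa using h2
  have hX : (X (i 0) : Sx N) ∈ P := by
    refine hnul _ fun z hz => ?_
    obtain ⟨a, rfl⟩ := hall z hz
    rw [eval_X, Pi.smul_apply, h0, smul_zero]
  have hX0 : (X 0 : MvPolynomial (Fin 2) ℂ) = 0 := by
    refine (algebraicIndependent_iff.1 hi) _ ?_
    rw [aeval_X]
    exact Ideal.Quotient.eq_zero_iff_mem.2 hX
  exact X_ne_zero (0 : Fin 2) hX0

theorem smul_zer {I : Ideal (Sx N)} (hH : IsHom I) {x : Vx N} (hx : x ∈ zer I) (a : ℂ) :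
    a • x ∈ zer I := by
  intro F hF
  rw [← sum_homogeneousComponent F, map_sum]
  refine Finset.sum_eq_zero fun m _ => ?_
  rw [eval_smul_form (homogeneousComponent_isHomogeneous m F), hx _ (hH F hF m), mul_zero]

end GAcmAux

theorem gAcm : S_GGen → S_GLoc → S_GCone → S_Mono → S_Null → S_GAcm := by
  intro hGen hLoc hCone hMono hNull N n s c I l hI hH hSm hA
  have hgen := hGen N n s I l hH hA
  have main : ∀ x ∈ zer I, x ≠ 0 → ∃ P : Ideal (Sx N), P.IsPrime ∧ IsHom P ∧ I ≤ P ∧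
      DimGe P (N + 1 - c * (s + 1)) ∧ (∀ v ∈ zer P, ∀ s : ℂ, v + s • x ∈ zer P) ∧
      ∀ v ∈ zer P, ∀ s t : ℂ, s • x + t • v ∈ zer I := by
    intro x hx hx0
    obtain ⟨F, f, h, g, h1, h2, h3, h4, h5⟩ := hLoc N c (s + 1) I hH hSm hgen x hx hx0
    obtain ⟨P, p1, p2, p3, p4, p5, p6⟩ := hCone N c I hI hH x hx hx0 F f h
      (fun i => ⟨(h1 i).1, (h1 i).2.1⟩) h3 h5
    refine ⟨P, p1, p2, p3, ?_, p5, p6⟩
    have hsum : ∑ i, f i ≤ c * (s + 1) := by
      calc ∑ i, f i ≤ ∑ _i : Fin c, (s + 1) := Finset.sum_le_sum fun i _ => (h1 i).2.2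
        _ = c * (s + 1) := by
          rw [Finset.sum_const, Finset.card_univ, Fintype.card_fin, smul_eq_mul]
    exact hMono _ P _ _ (Nat.sub_le_sub_left hsum (N + 1)) p4
  refine ⟨main, fun hc y hy hy0 => ?_⟩
  obtain ⟨P, p1, p2, p3, p4, p5, p6⟩ := main y hy hy0
  have h2 : DimGe P 2 := hMono _ P _ _ (by omega) p4
  obtain ⟨v, hv, hli⟩ := GAcmAux.exists_indep hNull P p1 p2 h2 y hy0
  exact ⟨v, hli, p6 v hv⟩

theorem gAcm2 : S_GGen → S_GLoc → S_GCone2 → S_Mono → S_Null → S_GAcm2 := by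
  intro hGen hLoc hCone hMono hNull N n s c I l hI hH hSm hA
  have hgen := hGen N n s I l hH hA
  have main : ∀ x ∈ zer I, x ≠ 0 → ∀ v₁ : Vx N, (∀ s t : ℂ, s • x + t • v₁ ∈ zer I) →
      ∃ P : Ideal (Sx N), P.IsPrime ∧ IsHom P ∧ I ≤ P ∧ v₁ ∈ zer P ∧
      DimGe P (N + 1 - c * (s + 1)) ∧ (∀ v ∈ zer P, ∀ s : ℂ, v + s • x ∈ zer P) ∧
      ∀ v ∈ zer P, ∀ s t : ℂ, s • x + t • v ∈ zer I := by
    intro x hx hx0 v₁ hv₁
    obtain ⟨F, f, h, g, h1, h2, h3, h4, h5⟩ := hLoc N c (s + 1) I hH hSm hgen x hx hx0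
    obtain ⟨P, p1, p2, p3, p7, p4, p5, p6⟩ := hCone N c I hI hH x hx hx0 F f h
      (fun i => ⟨(h1 i).1, (h1 i).2.1⟩) h3 h5 v₁ hv₁
    refine ⟨P, p1, p2, p3, p7, ?_, p5, p6⟩
    have hsum : ∑ i, f i ≤ c * (s + 1) := by
      calc ∑ i, f i ≤ ∑ _i : Fin c, (s + 1) := Finset.sum_le_sum fun i _ => (h1 i).2.2
        _ = c * (s + 1) := by
          rw [Finset.sum_const, Finset.card_univ, Fintype.card_fin, smul_eq_mul]
    exact hMono _ P _ _ (Nat.sub_le_sub_left hsum (N + 1)) p4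
  refine ⟨main, fun hc y hy hy0 => ?_⟩
  obtain ⟨P, p1, p2, p3, p7, p4, p5, p6⟩ := main y hy hy0 0 fun s t => by
    rw [smul_zero, add_zero]
    exact GAcmAux.smul_zer hH hy s
  have h2 : DimGe P 2 := hMono _ P _ _ (by omega) p4
  obtain ⟨v, hv, hli⟩ := GAcmAux.exists_indep hNull P p1 p2 h2 y hy0
  exact ⟨v, hli, p6 v hv⟩

end Pool.Agent.Lib.MP_776403_ag.SD
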