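import Pool.Agent.Lib.MP_776403_ag.SD.G.Spec

/-!
# THEOREM H, part G (helper92): the ideal is generated in degrees at most `s + 1`
-/

set_option autoImplicit false

open MvPolynomial

noncomputable section

namespace Pool.Agent.Lib.MP_776403_ag.SD

namespace GGenAux

variable {N n s : ℕ}

/-- homogeneous components of a multiple of a form -/
theorem hc_mul {H : Sx N} {d : ℕ} (hH : H.IsHomogeneous d) (c : Sx N) (m : ℕ) :
    homogeneousComponent (d + m) (H * c) = H * homogeneousComponent m c := by
  have h1 : ∀ i, homogeneousComponent (d + m) (H * homogeneousComponent i c) =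
      if d + m = d + i then H * homogeneousComponent i c else 0 := by
    intro i
    exact homogeneousComponent_of_mem (hH.mul (homogeneousComponent_isHomogeneous i c))
  have h2 : homogeneousComponent (d + m) (H * c) =
      ∑ i ∈ Finset.range (c.totalDegree + 1),
        if d + m = d + i then H * homogeneousComponent i c else 0 := by
    conv_lhs => rw [← sum_homogeneousComponent c]
    rw [Finset.mul_sum, map_sum]
    exact Finset.sum_congr rfl fun i _ => h1 i
  rw [h2]
  by_cases hr : m ∈ Finset.range (c.totalDegree + 1)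
  · rw [Finset.sum_eq_single_of_mem m hr]
    · rw [if_pos rfl]
    · intro i _ hi
      rw [if_neg (by omega)]
  · rw [Finset.sum_eq_zero]
    · rw [homogeneousComponent_eq_zero, mul_zero]
      rw [Finset.mem_range] at hr
      omega
    · intro i hi
      rw [if_neg]
      intro h
      apply hr
      have : m = i := by omega
      rw [this]
      exact hi

/-- elements of the ideal spanned by some of the `l j` -/
theorem mem_span_l (l : Fin (n + 1) → Sx N) (S : Set (Fin (n + 1))) (x : Sx N)
    (hx : x ∈ Ideal.span (l '' S)) :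
    ∃ C : Fin (n + 1) → Sx N, (∀ j, j ∉ S → C j = 0) ∧ x = ∑ j, l j * C j := by
  induction hx using Submodule.span_induction with
  | mem x h =>
    obtain ⟨j, hj, rfl⟩ := h
    refine ⟨fun i => if i = j then 1 else 0, ?_, ?_⟩
    · intro i hi
      have hij : i ≠ j := fun h => hi (by rw [h]; exact hj)
      exact if_neg hij
    · simp
  | zero => exact ⟨fun _ => 0, fun _ _ => rfl, by simp⟩
  | add x y _ _ hx hy =>
    obtain ⟨C, hC, rfl⟩ := hx
    obtain ⟨D, hD, rfl⟩ := hy
    refine ⟨fun j => C j + D j, fun j hj => by simp only [hC j hj, hD j hj, add_zero], ?_⟩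
    simp only [mul_add, Finset.sum_add_distrib]
  | smul a x _ hx =>
    obtain ⟨C, hC, rfl⟩ := hx
    refine ⟨fun j => a * C j, fun j hj => by simp only [hC j hj, mul_zero], ?_⟩
    rw [smul_eq_mul, Finset.mul_sum]
    exact Finset.sum_congr rfl fun j _ => by ring

/-- decomposition of forms -/
theorem dec {I : Ideal (Sx N)} (hI : IsHom I) (l : Fin (n + 1) → Sx N)
    (hl : ∀ i, (l i).IsHomogeneous 1) (S : Set (Fin (n + 1))) (m : ℕ) (H : Sx N)
    (hH : H.IsHomogeneous (m + 1)) (hm : H ∈ I ⊔ Ideal.span (l '' S)) :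
    ∃ (G : Sx N) (C : Fin (n + 1) → Sx N), G ∈ I ∧ G.IsHomogeneous (m + 1) ∧
      (∀ j, (C j).IsHomogeneous m) ∧ (∀ j, j ∉ S → C j = 0) ∧ H = G + ∑ j, l j * C j := by
  obtain ⟨a, ha, b, hb, hab⟩ := Submodule.mem_sup.1 hm
  obtain ⟨C, hC, rfl⟩ := mem_span_l l S b hb
  refine ⟨homogeneousComponent (m + 1) a, fun j => homogeneousComponent m (C j), hI a ha _,
    homogeneousComponent_isHomogeneous _ _, fun j => homogeneousComponent_isHomogeneous _ _,
    fun j hj => by simp only [hC j hj, map_zero], ?_⟩
  have h1 : H = homogeneousComponent (m + 1) (a + ∑ j, l j * C j) := by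
    rw [hab, homogeneousComponent_eq_self hH]
  have h2 : ∀ j, homogeneousComponent (m + 1) (l j * C j) =
      l j * homogeneousComponent m (C j) := by
    intro j
    rw [add_comm m 1]
    exact hc_mul (hl j) (C j) m
  rw [map_add, map_sum, Finset.sum_congr rfl fun j _ => h2 j] at h1
  exact h1

/-- a form of positive degree is in the span of the variables -/
theorem split {m : ℕ} {F : Sx N} (hF : F.IsHomogeneous (m + 1)) :
    ∃ D : Fin (N + 1) → Sx N, (∀ k, (D k).IsHomogeneous m) ∧ F = ∑ k, X k * D k := by
  refine ⟨fun k => C (((m : ℂ) + 1)⁻¹) * pderiv k F, fun k => ?_, ?_⟩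
  · have h1 : (pderiv k F).IsHomogeneous (m + 1 - 1) := hF.pderiv
    have h2 := (isHomogeneous_C (Fin (N + 1)) (((m : ℂ) + 1)⁻¹)).mul h1
    simpa using h2
  · have h3 := hF.sum_X_mul_pderiv
    have h4 : ∑ k : Fin (N + 1), X k * (C (((m : ℂ) + 1)⁻¹) * pderiv k F) =
        C (((m : ℂ) + 1)⁻¹) * ∑ k, X k * pderiv k F := by
      rw [Finset.mul_sum]
      exact Finset.sum_congr rfl fun k _ => by ring
    have h5 : ((m + 1 : ℕ) • F : Sx N) = C ((m : ℂ) + 1) * F := by
      rw [nsmul_eq_mul]
      simp
    have h6 : ((m : ℂ) + 1) ≠ 0 := by exact_mod_cast Nat.succ_ne_zero m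
    rw [h4, h3, h5, ← mul_assoc, ← C_mul, inv_mul_cancel₀ h6, C_1, one_mul]

/-- all forms of large degree are in the ideal -/
theorem top_all (J : Ideal (Sx N)) (s : ℕ) (h : ∀ F : Sx N, F.IsHomogeneous (s + 1) → F ∈ J) :
    ∀ (k : ℕ) (F : Sx N), F.IsHomogeneous (s + 1 + k) → F ∈ J := by
  intro k
  induction k with
  | zero => exact h
  | succ k ih =>
    intro F hF
    obtain ⟨D, hD, hFD⟩ := split (m := s + 1 + k) (F := F) hF
    rw [hFD]
    exact Ideal.sum_mem _ fun i _ => Ideal.mul_mem_left _ _ (ih _ (hD i))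

/-- syzygies of the `l j` modulo `I` are trivial -/
theorem claim {I : Ideal (Sx N)} (hI : IsHom I) (l : Fin (n + 1) → Sx N) (h : ACM I n s l)
    (m : ℕ) : ∀ (k : ℕ) (A : Fin (n + 1) → Sx N), (∀ j, (A j).IsHomogeneous (m + 1)) →
      (∀ j : Fin (n + 1), k ≤ j.1 → A j = 0) → ∑ j, l j * A j ∈ I →
      ∃ B : Fin (n + 1) → Sx N, (∀ j, B j ∈ I ∧ (B j).IsHomogeneous (m + 1)) ∧
        ∑ j, l j * A j = ∑ j, l j * B j := by
  intro k
  induction k with
  | zero =>
    intro A _ hA _
    refine ⟨fun _ => 0, fun _ => ⟨I.zero_mem, isHomogeneous_zero _ _ _⟩, ?_⟩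
    exact Finset.sum_congr rfl fun j _ => by rw [hA j (Nat.zero_le _)]
  | succ k ih =>
    intro A hAh hA hAI
    by_cases hk : k < n + 1
    swap
    · exact ih A hAh (fun j hj => absurd (lt_of_le_of_lt hj j.2) hk) hAI
    set i : Fin (n + 1) := ⟨k, hk⟩ with hi
    set A0 : Fin (n + 1) → Sx N := fun j => if j = i then 0 else A j with hA0
    have hsum : ∑ j, l j * A0 j = ∑ j, l j * A j - l i * A i := by
      have h1 : ∀ j, l j * A0 j = l j * A j - if j = i then l j * A j else 0 := by
        intro j
        by_cases hj : j = i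
        · simp [hA0, hj]
        · simp [hA0, hj]
      rw [Finset.sum_congr rfl fun j _ => h1 j, Finset.sum_sub_distrib]
      simp
    have hmem : l i * A i ∈ I ⊔ Ideal.span (l '' {j | j < i}) := by
      have h1 : l i * A i = ∑ j, l j * A j - ∑ j, l j * A0 j := by rw [hsum]; ring
      rw [h1]
      refine Ideal.sub_mem _ (Ideal.mem_sup_left hAI) (Ideal.sum_mem _ fun j _ => ?_)
      by_cases hj : j < i
      · exact Ideal.mem_sup_right (Ideal.mul_mem_right _ _
          (Ideal.subset_span (Set.mem_image_of_mem l hj)))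
      · have h2 : A0 j = 0 := by
          by_cases hji : j = i
          · simp [hA0, hji]
          · have h3 : i < j := lt_of_le_of_ne (not_lt.1 hj) (fun h => hji h.symm)
            have h4 : k + 1 ≤ j.1 := h3
            simp [hA0, hji, hA j h4]
        rw [h2, mul_zero]
        exact Ideal.zero_mem _
    have hmem2 := h.reg i (A i) hmem
    obtain ⟨G, C, hG, hGh, hCh, hC, hdec⟩ := dec hI l h.lin {j | j < i} m (A i) (hAh i) hmem2
    have hCi : C i = 0 := hC i (lt_irrefl i)
    have hsum2 : ∑ j, l j * (A0 j + l i * C j) = ∑ j, l j * A j - l i * G := by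
      have h1 : ∑ j, l j * (A0 j + l i * C j) = ∑ j, l j * A0 j + l i * ∑ j, l j * C j := by
        rw [Finset.mul_sum, ← Finset.sum_add_distrib]
        exact Finset.sum_congr rfl fun j _ => by ring
      rw [h1, hsum]
      have h2 : ∑ j, l j * C j = A i - G := by rw [hdec]; ring
      rw [h2]
      ring
    have g1 : ∀ j, (A0 j + l i * C j).IsHomogeneous (m + 1) := by
      intro j
      refine IsHomogeneous.add ?_ ?_
      · by_cases hj : j = i
        · simp only [hA0, hj, if_true]
          exact isHomogeneous_zero _ _ _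
        · simp only [hA0, hj, if_false]
          exact hAh j
      · rw [add_comm m 1]
        exact (h.lin i).mul (hCh j)
    have g2 : ∀ j : Fin (n + 1), k ≤ j.1 → A0 j + l i * C j = 0 := by
      intro j hj
      by_cases hji : j = i
      · simp [hA0, hji, hCi]
      · have h3 : k + 1 ≤ j.1 := by
          have h4 : j.1 ≠ k := fun h => hji (Fin.ext h)
          omega
        have h5 : C j = 0 := by
          apply hC
          intro h6
          have h7 : j.1 < k := h6
          omega
        simp [hA0, hji, hA j h3, h5]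
    have g3 : ∑ j, l j * (A0 j + l i * C j) ∈ I := by
      rw [hsum2]
      exact I.sub_mem hAI (Ideal.mul_mem_left _ _ hG)
    obtain ⟨B, hB, hBs⟩ := ih (fun j => A0 j + l i * C j) g1 g2 g3
    rw [hsum2] at hBs
    refine ⟨fun j => B j + if j = i then G else 0, fun j => ⟨?_, ?_⟩, ?_⟩
    · refine I.add_mem (hB j).1 ?_
      by_cases hj : j = i
      · rw [if_pos hj]; exact hG
      · rw [if_neg hj]; exact I.zero_mem
    · refine (hB j).2.add ?_
      by_cases hj : j = i
      · rw [if_pos hj]; exact hGh
      · rw [if_neg hj]; exact isHomogeneous_zero _ _ _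
    · have h1 : ∑ j, l j * (B j + if j = i then G else 0) = ∑ j, l j * B j + l i * G := by
        simp only [mul_add, Finset.sum_add_distrib]
        simp
      rw [h1, ← hBs]
      ring

end GGenAux

open GGenAux

/-- The ideal is generated in degrees `≤ s + 1`. -/
theorem gGen : S_GGen := by
  intro N n s I l hI h
  set I' : Ideal (Sx N) := Ideal.span {F | F ∈ I ∧ ∃ e ≤ s + 1, F.IsHomogeneous e} with hI'
  have htop : ∀ (k : ℕ) (F : Sx N), F.IsHomogeneous (s + 1 + k) →
      F ∈ I ⊔ Ideal.span (l '' Set.univ) := by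
    rw [Set.image_univ]
    exact top_all _ s h.top
  have key : ∀ (m : ℕ) (F : Sx N), F ∈ I → F.IsHomogeneous m → F ∈ I' := by
    intro m
    induction m using Nat.strong_induction_on with
    | _ m ih =>
      intro F hF hFm
      by_cases hm : m ≤ s + 1
      · exact Ideal.subset_span ⟨hF, m, hm, hFm⟩
      · obtain ⟨t, rfl⟩ : ∃ t, m = s + 1 + t + 1 := ⟨m - s - 2, by omega⟩
        obtain ⟨D, hD, hFD⟩ := split (m := s + 1 + t) (F := F) hFm
        have hdec : ∀ k, ∃ (G : Sx N) (C : Fin (n + 1) → Sx N), G ∈ I ∧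
            G.IsHomogeneous (s + t + 1) ∧ (∀ j, (C j).IsHomogeneous (s + t)) ∧
            (∀ j, j ∉ (Set.univ : Set (Fin (n + 1))) → C j = 0) ∧ D k = G + ∑ j, l j * C j := by
          intro k
          refine dec hI l h.lin Set.univ (s + t) (D k) ?_ (htop t (D k) (hD k))
          have := hD k
          rwa [show s + 1 + t = s + t + 1 by omega] at this
        choose G C hG hGh hCh _ hGC using hdec
        have hA : F = ∑ k, X k * G k + ∑ j, l j * ∑ k, X k * C k j := by
          rw [hFD]
          have h1 : ∀ k, X k * D k = X k * G k + ∑ j, l j * (X k * C k j) := by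
            intro k
            rw [hGC k, mul_add, Finset.mul_sum]
            rw [Finset.sum_congr rfl fun j _ => mul_left_comm (X k) (l j) (C k j)]
          rw [Finset.sum_congr rfl fun k _ => h1 k, Finset.sum_add_distrib, Finset.sum_comm]
          simp only [Finset.mul_sum]
        have hAI : ∑ j, l j * ∑ k, X k * C k j ∈ I := by
          have h1 : ∑ j, l j * ∑ k, X k * C k j = F - ∑ k, X k * G k := by rw [hA]; ring
          rw [h1]
          exact I.sub_mem hF (Ideal.sum_mem _ fun k _ => Ideal.mul_mem_left _ _ (hG k))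
        obtain ⟨B, hB, hBs⟩ := claim hI l h (s + t) (n + 1) (fun j => ∑ k, X k * C k j)
          (fun j => by
            refine IsHomogeneous.sum _ _ _ fun k _ => ?_
            rw [add_comm (s + t) 1]
            exact (isHomogeneous_X ℂ k).mul (hCh k j))
          (fun j hj => absurd j.2 (not_lt.2 hj)) hAI
        rw [hA, hBs]
        refine I'.add_mem (Ideal.sum_mem _ fun k _ => Ideal.mul_mem_left _ _ ?_)
          (Ideal.sum_mem _ fun j _ => Ideal.mul_mem_left _ _ ?_)
        · exact ih (s + t + 1) (by omega) _ (hG k) (hGh k)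
        · exact ih (s + t + 1) (by omega) _ (hB j).1 (hB j).2
  intro F hF
  rw [← sum_homogeneousComponent F]
  exact Ideal.sum_mem _ fun m _ => key m _ (hI F hF m) (homogeneousComponent_isHomogeneous m F)

end Pool.Agent.Lib.MP_776403_ag.SD
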