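import Pool.Agent.Lib.MP_776403_ag.SD.G.Spec

/-!
# THEOREM H, part G: Hilbert function from the product formula (GHci)
-/

set_option autoImplicit false

open MvPolynomial

noncomputable section

namespace Pool.Agent.Lib.MP_776403_ag.SD

theorem gHci : S_GHci := by
  intro N c f h d hQ hh k
  unfold QP at hQ
  rw [hh] at hQ
  have h1 : (PowerSeries.mk fun n => (Nat.choose (N + n) N : ℤ)) *
      ((1 - PowerSeries.X) ^ (N + 1)) = 1 :=
    PowerSeries.mk_add_choose_mul_one_sub_pow_eq_one ℤ N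
  have h2 : ((∏ i, (1 - Polynomial.X ^ (d i)) : Polynomial ℤ) : PowerSeries ℤ) =
      ∑ A : Finset (Fin c), (-1 : PowerSeries ℤ) ^ A.card * PowerSeries.X ^ (∑ i ∈ A, d i) := by
    have h3 : (∏ i, (1 - Polynomial.X ^ (d i)) : Polynomial ℤ) =
        ∑ A : Finset (Fin c), (-1 : Polynomial ℤ) ^ A.card * Polynomial.X ^ (∑ i ∈ A, d i) := by
      have h4 : ∀ i, (1 - Polynomial.X ^ (d i) : Polynomial ℤ) = 1 + -(Polynomial.X ^ (d i)) :=
        fun i => sub_eq_add_neg _ _
      rw [Finset.prod_congr rfl fun i _ => h4 i, Finset.prod_one_add, Finset.powerset_univ]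
      refine Finset.sum_congr rfl fun A _ => ?_
      rw [Finset.prod_neg, Finset.prod_pow_eq_pow_sum]
    rw [h3]
    have h5 : ∀ p : Polynomial ℤ, (p : PowerSeries ℤ) = Polynomial.coeToPowerSeries.ringHom p :=
      fun p => rfl
    rw [h5, map_sum]
    refine Finset.sum_congr rfl fun A _ => ?_
    rw [← h5, Polynomial.coe_mul, Polynomial.coe_pow, Polynomial.coe_pow, Polynomial.coe_X,
      Polynomial.coe_neg, Polynomial.coe_one]
  have h6 : ps f = (PowerSeries.mk fun n => (Nat.choose (N + n) N : ℤ)) *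
      ∑ A : Finset (Fin c), (-1 : PowerSeries ℤ) ^ A.card * PowerSeries.X ^ (∑ i ∈ A, d i) := by
    rw [← h2, ← hQ, ← mul_assoc, h1, one_mul]
  have h7 : (f k : ℤ) = PowerSeries.coeff k (ps f) := by
    unfold ps
    rw [PowerSeries.coeff_mk]
  rw [h7, h6, Finset.mul_sum, map_sum]
  unfold hci
  refine Finset.sum_congr rfl fun A _ => ?_
  have h8 : (PowerSeries.mk fun n => (Nat.choose (N + n) N : ℤ)) *
      ((-1 : PowerSeries ℤ) ^ A.card * PowerSeries.X ^ (∑ i ∈ A, d i)) =
      PowerSeries.C ((-1 : ℤ) ^ A.card) *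
        ((PowerSeries.mk fun n => (Nat.choose (N + n) N : ℤ)) *
          PowerSeries.X ^ (∑ i ∈ A, d i)) := by
    rw [map_pow, map_neg, map_one]
    ring
  rw [h8, PowerSeries.coeff_C_mul, PowerSeries.coeff_mul_X_pow']
  congr 1
  split_ifs with h9
  · rw [PowerSeries.coeff_mk]
  · rfl

end Pool.Agent.Lib.MP_776403_ag.SD
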