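import Pool.Agent.Lib.MP_776403_ag.SD.G.Spec
import Pool.Agent.Lib.MP_776403_ag.SD.Bas

/-!
# THEOREM H, part G: local equations of small degree
-/

set_option autoImplicit false

open MvPolynomial

noncomputable section

namespace Pool.Agent.Lib.MP_776403_ag.SD

namespace GLocAux

variable {N : ℕ}

/-! ### Homogeneous components -/

private theorem comp_mul {g R : Sx N} {d : ℕ} (hR : R.IsHomogeneous d) (δ : ℕ) :
    homogeneousComponent (d + δ) (g * R) = homogeneousComponent δ g * R := by
  conv_lhs => rw [← sum_homogeneousComponent g]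
  rw [Finset.sum_mul, map_sum]
  have h1 : ∀ k ∈ Finset.range (g.totalDegree + 1),
      homogeneousComponent (d + δ) (homogeneousComponent k g * R) =
        if k = δ then homogeneousComponent δ g * R else 0 := by
    intro k _
    have h2 : (homogeneousComponent k g * R).IsHomogeneous (k + d) :=
      (homogeneousComponent_isHomogeneous k g).mul hR
    rw [homogeneousComponent_of_mem ((mem_homogeneousSubmodule _ _).2 h2)]
    by_cases hk : k = δ
    · rw [if_pos (by omega), if_pos hk, hk]
    · rw [if_neg (by omega), if_neg hk]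
  rw [Finset.sum_congr rfl h1, Finset.sum_ite_eq']
  split_ifs with h3
  · rfl
  · have h4 : g.totalDegree < δ := by
      rw [Finset.mem_range] at h3
      omega
    rw [homogeneousComponent_eq_zero _ _ h4, zero_mul]

private theorem exists_comp {g : Sx N} {p : Vx N} (hg : eval p g ≠ 0) :
    ∃ δ : ℕ, eval p (homogeneousComponent δ g) ≠ 0 := by
  by_contra hc
  push Not at hc
  apply hg
  rw [← sum_homogeneousComponent g, map_sum]
  exact Finset.sum_eq_zero fun k _ => hc k

/-- An ideal generated by forms is homogeneous. -/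
private theorem span_hom (s : Set (Sx N)) (hs : ∀ f ∈ s, ∃ m : ℕ, f.IsHomogeneous m) :
    IsHom (Ideal.span s) := by
  intro F hF m
  let _ := MvPolynomial.gradedAlgebra (σ := Fin (N + 1)) (R := ℂ)
  have h1 : (Ideal.span s).IsHomogeneous (homogeneousSubmodule (Fin (N + 1)) ℂ) := by
    refine Ideal.homogeneous_span _ _ ?_
    intro f hf
    obtain ⟨n, hn⟩ := hs f hf
    exact ⟨n, hn⟩
  exact homogeneousComponent_mem_of_mem h1 hF m

/-- a form which multiplies `I` into `J` and does not vanish at `y` -/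
private theorem comp_colon {I J : Ideal (Sx N)} (hI : IsHom I) (hJ : IsHom J) {h : Sx N}
    (hh : ∀ G ∈ I, h * G ∈ J) (m : ℕ) : ∀ G ∈ I, homogeneousComponent m h * G ∈ J := by
  intro G hG
  rw [← sum_homogeneousComponent G, Finset.mul_sum]
  refine Ideal.sum_mem _ fun k _ => ?_
  rw [← comp_mul (homogeneousComponent_isHomogeneous k G)]
  exact hJ _ (hh _ (hI G hG k)) _

/-! ### Gradients -/

/-- the gradients of the elements of an ideal generated by `S` -/
private theorem grad_span {S : Set (Sx N)} {y : Vx N} (hS : ∀ s ∈ S, eval y s = 0) {F : Sx N}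
    (hF : F ∈ Ideal.span S) :
    eval y F = 0 ∧ grad F y ∈ Submodule.span ℂ ((fun s => grad s y) '' S) := by
  have h0 : grad (0 : Sx N) y = 0 := by
    funext i
    simp [grad]
  refine Submodule.span_induction (p := fun F _ => eval y F = 0 ∧
    grad F y ∈ Submodule.span ℂ ((fun s => grad s y) '' S)) ?_ ?_ ?_ ?_ hF
  · intro s hs
    exact ⟨hS s hs, Submodule.subset_span ⟨s, hs, rfl⟩⟩
  · exact ⟨map_zero _, by rw [h0]; exact Submodule.zero_mem _⟩
  · rintro a b _ _ ⟨h1, h2⟩ ⟨h3, h4⟩
    exact ⟨by rw [map_add, h1, h3, add_zero], by rw [grad_add]; exact Submodule.add_mem _ h2 h4⟩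
  · rintro a b _ ⟨h1, h2⟩
    refine ⟨by rw [smul_eq_mul, map_mul, h1, mul_zero], ?_⟩
    rw [smul_eq_mul, grad_mul_of_zero h1]
    exact Submodule.smul_mem _ _ h2

/-- `c` independent vectors in the image of `S` from `c` independent vectors with the same span -/
private theorem choose_indep {α V : Type} [AddCommGroup V] [Module ℂ V] [FiniteDimensional ℂ V]
    (φ : α → V) (S : Set α) {c : ℕ} {w : Fin c → V} (hw : LinearIndependent ℂ w)
    (hS : Submodule.span ℂ (φ '' S) = Submodule.span ℂ (Set.range w)) :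
    ∃ F : Fin c → α, (∀ i, F i ∈ S) ∧ LinearIndependent ℂ (fun i => φ (F i)) := by
  obtain ⟨b, hb1, hb2, hb3⟩ := exists_linearIndependent ℂ (φ '' S)
  have hfin : Finite b := hb3.finite
  have := Fintype.ofFinite b
  have h1 : Fintype.card b = c := by
    have h2 : Module.finrank ℂ (Submodule.span ℂ (Set.range (Subtype.val : b → V))) =
        Fintype.card b := finrank_span_eq_card hb3
    have h3 : Module.finrank ℂ (Submodule.span ℂ (Set.range w)) = Fintype.card (Fin c) :=
      finrank_span_eq_card hw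
    rw [Subtype.range_coe, hb2, hS, h3, Fintype.card_fin] at h2
    exact h2.symm
  have e : Fin c ≃ b := (Fintype.equivFinOfCardEq h1).symm
  have h4 : ∀ i : Fin c, ∃ a ∈ S, φ a = (e i : V) := fun i => hb1 (e i).2
  choose F hF1 hF2 using h4
  refine ⟨F, hF1, ?_⟩
  have h5 : (fun i => φ (F i)) = (Subtype.val : b → V) ∘ e := by
    funext i
    exact hF2 i
  rw [h5]
  exact hb3.comp e e.injective

end GLocAux

open GLocAux

/-- (GLoc) local equations of small degree -/
theorem gLoc : S_GLoc := by
  intro N c e I hI hS hgen y hy hy0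
  obtain ⟨F₀, f₀, h₀, e₀, hF₀, hh₀, hhy, hind, hmem⟩ := hS y hy hy0
  -- gradients of elements of `I`
  have hF₀y : ∀ s ∈ Set.range F₀, eval y s = 0 := by
    rintro _ ⟨i, rfl⟩
    exact hy _ (hF₀ i).1
  have himg : (fun s => grad s y) '' Set.range F₀ = Set.range (fun i => grad (F₀ i) y) := by
    rw [← Set.range_comp]
    rfl
  have hW : ∀ G ∈ I, grad G y ∈ Submodule.span ℂ (Set.range (fun i => grad (F₀ i) y)) := by
    intro G hG
    have h1 := (grad_span hF₀y (hmem G hG)).2
    rw [grad_mul_of_zero (hy G hG), himg] at h1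
    have h2 := Submodule.smul_mem _ (eval y h₀)⁻¹ h1
    rwa [smul_smul, inv_mul_cancel₀ hhy, one_smul] at h2
  -- the forms of small degree
  have hspan : Submodule.span ℂ ((fun s => grad s y) '' {F | F ∈ I ∧ ∃ k ≤ e,
      F.IsHomogeneous k}) = Submodule.span ℂ (Set.range (fun i => grad (F₀ i) y)) := by
    apply le_antisymm
    · rw [Submodule.span_le]
      rintro _ ⟨s, hs, rfl⟩
      exact hW s hs.1
    · rw [Submodule.span_le]
      rintro _ ⟨i, rfl⟩
      exact (grad_span (fun s hs => hy s hs.1) (hgen (hF₀ i).1)).2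
  obtain ⟨F, hF1, hF2⟩ := choose_indep (fun s => grad s y) _ hind hspan
  have hFdeg : ∀ i, ∃ k, k ≤ e ∧ (F i).IsHomogeneous k := fun i => by
    obtain ⟨k, hk1, hk2⟩ := (hF1 i).2
    exact ⟨k, hk1, hk2⟩
  choose f hf1 hf2 using hFdeg
  -- the matrix
  have hA : ∀ i, ∃ a : Fin c → Sx N, ∑ j, a j * F₀ j = h₀ * F i := by
    intro i
    obtain ⟨a, ha⟩ := (Ideal.mem_span_range_iff_exists_fun).1 (hmem (F i) (hF1 i).1)
    exact ⟨a, ha⟩
  choose a ha using hA
  obtain ⟨A, hAdef⟩ : ∃ A : Matrix (Fin c) (Fin c) (Sx N), A = Matrix.of a := ⟨_, rfl⟩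
  have hAF : A.mulVec F₀ = h₀ • F := by
    funext i
    rw [hAdef]
    simp only [Matrix.mulVec, dotProduct, Matrix.of_apply, Pi.smul_apply, smul_eq_mul]
    exact ha i
  have hgradF : ∀ i, eval y h₀ • grad (F i) y = ∑ j, eval y (a i j) • grad (F₀ j) y := by
    intro i
    rw [← grad_mul_of_zero (hy _ (hF1 i).1), ← ha i, grad_sum]
    exact Finset.sum_congr rfl fun j _ => grad_mul_of_zero (hy _ (hF₀ j).1)
  have hdet : eval y A.det ≠ 0 := by
    intro h0
    have h1 : (A.map (eval y)).det = 0 := by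
      rw [← h0, RingHom.map_det]
      rfl
    obtain ⟨v, hv0, hv⟩ := Matrix.exists_vecMul_eq_zero_iff.2 h1
    have h2 : ∀ j, ∑ i, v i * eval y (a i j) = 0 := by
      intro j
      have h3 := congrFun hv j
      simp only [Matrix.vecMul, dotProduct, Matrix.map_apply, hAdef, Matrix.of_apply,
        Pi.zero_apply] at h3
      exact h3
    have h3 : ∑ i, v i • grad (F i) y = 0 := by
      have h4 : eval y h₀ • ∑ i, v i • grad (F i) y = 0 := by
        rw [Finset.smul_sum]
        have h5 : ∀ i ∈ (Finset.univ : Finset (Fin c)), eval y h₀ • v i • grad (F i) y =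
            ∑ j, (v i * eval y (a i j)) • grad (F₀ j) y := by
          intro i _
          rw [smul_comm, hgradF, Finset.smul_sum]
          exact Finset.sum_congr rfl fun j _ => by rw [smul_smul]
        rw [Finset.sum_congr rfl h5, Finset.sum_comm]
        refine Finset.sum_eq_zero fun j _ => ?_
        rw [← Finset.sum_smul, h2 j, zero_smul]
      exact (smul_eq_zero.1 h4).resolve_left hhy
    have h4 := Fintype.linearIndependent_iff.1 hF2 v h3
    exact hv0 (funext h4)
  -- the equations `F` generate `I` near `y`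
  have hdetF : ∀ j, A.det * F₀ j ∈ Ideal.span (Set.range F) := by
    intro j
    have h1 : A.adjugate.mulVec (A.mulVec F₀) = A.det • F₀ := by
      rw [Matrix.mulVec_mulVec, Matrix.adjugate_mul, Matrix.smul_mulVec, Matrix.one_mulVec]
    have h2 : A.det * F₀ j = ∑ i, A.adjugate j i * (h₀ * F i) := by
      have h3 := congrFun h1 j
      rw [hAF] at h3
      simp only [Matrix.mulVec, dotProduct, Pi.smul_apply, smul_eq_mul] at h3
      exact h3.symm
    rw [h2]
    refine Ideal.sum_mem _ fun i _ => ?_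
    rw [← mul_assoc]
    exact Ideal.mul_mem_left _ _ (Ideal.subset_span ⟨i, rfl⟩)
  have hh' : ∀ G ∈ I, h₀ * A.det * G ∈ Ideal.span (Set.range F) := by
    intro G hG
    obtain ⟨g, hg⟩ := (Ideal.mem_span_range_iff_exists_fun).1 (hmem G hG)
    have h1 : h₀ * A.det * G = ∑ j, g j * (A.det * F₀ j) := by
      calc h₀ * A.det * G = A.det * (h₀ * G) := by ring
        _ = A.det * ∑ j, g j * F₀ j := by rw [hg]
        _ = _ := by
          rw [Finset.mul_sum]
          exact Finset.sum_congr rfl fun j _ => by ring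
    rw [h1]
    exact Ideal.sum_mem _ fun j _ => Ideal.mul_mem_left _ _ (hdetF j)
  have hhy' : eval y (h₀ * A.det) ≠ 0 := by
    rw [map_mul]
    exact mul_ne_zero hhy hdet
  obtain ⟨g, hg⟩ := exists_comp hhy'
  have hJ : IsHom (Ideal.span (Set.range F)) := by
    refine span_hom _ ?_
    rintro _ ⟨i, rfl⟩
    exact ⟨f i, hf2 i⟩
  exact ⟨F, f, homogeneousComponent g (h₀ * A.det), g,
    fun i => ⟨(hF1 i).1, hf2 i, hf1 i⟩, homogeneousComponent_isHomogeneous g _, hg, hF2,
    comp_colon hI hJ hh' g⟩

end Pool.Agent.Lib.MP_776403_ag.SD
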