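import Pool.Agent.Lib.MP_776403_ag.SD.G.Spec

/-!
# THEOREM H, part G: (GNe), the variety is not empty
-/

set_option autoImplicit false

open MvPolynomial

noncomputable section

namespace Pool.Agent.Lib.MP_776403_ag.SD

theorem gNe : S_D6' → S_GNe := by
  intro hD N n s I l hI _ hA
  by_contra hcon
  have h0 : ∀ z ∈ zer I, z = 0 := fun z hz => by
    by_contra h
    exact hcon ⟨z, hz, h⟩
  obtain ⟨ρ, hρ⟩ := hD N I h0
  have h1 : (l 0) ^ ρ ∈ I := by
    have h2 : ((l 0) ^ ρ).IsHomogeneous (1 * ρ) := (hA.lin 0).pow ρ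
    rw [one_mul] at h2
    exact hρ ρ le_rfl _ h2
  have h3 : l 0 ∈ I := hI.mem_of_pow_mem ρ h1
  have h4 : (1 : Sx N) ∈ I ⊔ Ideal.span (l '' {j | j < 0}) := by
    refine hA.reg 0 1 ?_
    rw [mul_one]
    exact Ideal.mem_sup_left h3
  have h5 : {j : Fin (n + 1) | j < 0} = ∅ := by
    ext j
    simp
  rw [h5, Set.image_empty, Ideal.span_empty, sup_bot_eq] at h4
  exact hI.ne_top ((Ideal.eq_top_iff_one I).2 h4)

end Pool.Agent.Lib.MP_776403_ag.SD
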