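import Pool.Agent.Lib.MP_776403_ag.SD.G.GGen

/-!
# THEOREM H, part G (helper61): the Hilbert series of a Cohen-Macaulay ring
-/

set_option autoImplicit false

open MvPolynomial

noncomputable section

namespace Pool.Agent.Lib.MP_776403_ag.SD

namespace GHSAux

variable {N n s : ℕ}

theorem fin_gr (J : Ideal (Sx N)) (m : ℕ) : Module.Finite ℂ (gr J m) :=
  Module.Finite.iff_fg.2 ((homogeneousSubmodule_fg (Fin (N + 1)) ℂ m).map _)

theorem mem_gr (J : Ideal (Sx N)) (m : ℕ) (z : Sx N ⧸ J) :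
    z ∈ gr J m ↔ ∃ F : Sx N, F.IsHomogeneous m ∧ Ideal.Quotient.mk J F = z := by
  unfold gr
  rw [Submodule.mem_map]
  rfl

theorem smul_mk (J : Ideal (Sx N)) (a : ℂ) (F : Sx N) :
    a • (Ideal.Quotient.mk J F : Sx N ⧸ J) = Ideal.Quotient.mk J (C a * F) := by
  rw [← smul_eq_C_mul]
  rfl

theorem smul_one_mk (J : Ideal (Sx N)) (a : ℂ) :
    a • (1 : Sx N ⧸ J) = Ideal.Quotient.mk J (C a) := by
  have h := smul_mk J a 1
  rwa [mul_one, map_one] at h

/-- The exact sequence of the multiplication by `L`. -/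
theorem rec_succ {J J' : Ideal (Sx N)} (L : Sx N) (hL : L.IsHomogeneous 1) (hJ : J ≤ J')
    (hLJ : L ∈ J') (hreg : ∀ F, L * F ∈ J → F ∈ J)
    (hdec : ∀ (m : ℕ) (F : Sx N), F.IsHomogeneous (m + 1) → F ∈ J' →
      ∃ G A : Sx N, G ∈ J ∧ A.IsHomogeneous m ∧ F = G + L * A) (m : ℕ) :
    Module.finrank ℂ (gr J' (m + 1)) + Module.finrank ℂ (gr J m) =
      Module.finrank ℂ (gr J (m + 1)) := by
  have := fin_gr J (m + 1)
  let p : (Sx N ⧸ J) →ₗ[ℂ] (Sx N ⧸ J') := (Ideal.Quotient.factorₐ ℂ hJ).toLinearMap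
  let q : (Sx N ⧸ J) →ₗ[ℂ] (Sx N ⧸ J) := LinearMap.mulLeft ℂ (Ideal.Quotient.mk J L)
  have hq : Function.Injective q := by
    rw [← LinearMap.ker_eq_bot, LinearMap.ker_eq_bot']
    intro z hz
    obtain ⟨F, rfl⟩ := Ideal.Quotient.mk_surjective z
    have h1 : Ideal.Quotient.mk J (L * F) = 0 := by
      rw [map_mul]
      exact hz
    exact Ideal.Quotient.eq_zero_iff_mem.2 (hreg F (Ideal.Quotient.eq_zero_iff_mem.1 h1))
  let f := p.domRestrict (gr J (m + 1))
  have h1 : LinearMap.range f = gr J' (m + 1) := by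
    ext w
    rw [LinearMap.mem_range, mem_gr]
    constructor
    · rintro ⟨⟨z, hz⟩, rfl⟩
      obtain ⟨F, hF, rfl⟩ := (mem_gr J (m + 1) z).1 hz
      exact ⟨F, hF, rfl⟩
    · rintro ⟨F, hF, rfl⟩
      exact ⟨⟨Ideal.Quotient.mk J F, (mem_gr J (m + 1) _).2 ⟨F, hF, rfl⟩⟩, rfl⟩
  have h2 : (LinearMap.ker f).map (gr J (m + 1)).subtype = (gr J m).map q := by
    ext w
    rw [Submodule.mem_map, Submodule.mem_map]
    constructor
    · rintro ⟨⟨z, hz⟩, hz0, rfl⟩
      obtain ⟨F, hF, rfl⟩ := (mem_gr J (m + 1) z).1 hz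
      have h3 : Ideal.Quotient.mk J' F = 0 := LinearMap.mem_ker.1 hz0
      obtain ⟨G, A, hG, hA, hFA⟩ := hdec m F hF (Ideal.Quotient.eq_zero_iff_mem.1 h3)
      refine ⟨Ideal.Quotient.mk J A, (mem_gr J m _).2 ⟨A, hA, rfl⟩, ?_⟩
      change Ideal.Quotient.mk J L * Ideal.Quotient.mk J A = Ideal.Quotient.mk J F
      rw [hFA, map_add, Ideal.Quotient.eq_zero_iff_mem.2 hG, zero_add, map_mul]
    · rintro ⟨z, hz, rfl⟩
      obtain ⟨A, hA, rfl⟩ := (mem_gr J m z).1 hz
      have h3 : (L * A).IsHomogeneous (m + 1) := by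
        rw [add_comm m 1]
        exact hL.mul hA
      have h4 : Ideal.Quotient.mk J' (L * A) = 0 :=
        Ideal.Quotient.eq_zero_iff_mem.2 (Ideal.mul_mem_right _ _ hLJ)
      refine ⟨⟨Ideal.Quotient.mk J (L * A), (mem_gr J (m + 1) _).2 ⟨_, h3, rfl⟩⟩,
        LinearMap.mem_ker.2 h4, ?_⟩
      change Ideal.Quotient.mk J (L * A) = Ideal.Quotient.mk J L * Ideal.Quotient.mk J A
      rw [map_mul]
  have h3 : Module.finrank ℂ (LinearMap.ker f) = Module.finrank ℂ (gr J m) := by
    rw [(Submodule.equivMapOfInjective q hq (gr J m)).finrank_eq, ← h2]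
    exact (Submodule.equivMapOfInjective _ (Submodule.subtype_injective _)
      (LinearMap.ker f)).finrank_eq
  have h4 := LinearMap.finrank_range_add_finrank_ker f
  rw [h1, h3] at h4
  exact h4

/-- The degree `0` part. -/
theorem dim_zero (J : Ideal (Sx N)) (hJ : ∀ F ∈ J, constantCoeff F = 0) :
    Module.finrank ℂ (gr J 0) = 1 := by
  have h1 : gr J 0 = Submodule.span ℂ {(1 : Sx N ⧸ J)} := by
    ext z
    rw [mem_gr, Submodule.mem_span_singleton]
    constructor
    · rintro ⟨F, hF, rfl⟩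
      refine ⟨coeff 0 F, ?_⟩
      have h2 : F = C (coeff 0 F) := by
        rw [← homogeneousComponent_zero, homogeneousComponent_eq_self hF]
      conv_rhs => rw [h2]
      exact smul_one_mk J _
    · rintro ⟨a, rfl⟩
      exact ⟨C a, isHomogeneous_C _ _, (smul_one_mk J a).symm⟩
  rw [h1]
  refine finrank_span_singleton ?_
  intro h0
  have h2 : (1 : Sx N) ∈ J := Ideal.Quotient.eq_zero_iff_mem.1 h0
  have h3 := hJ 1 h2
  rw [map_one] at h3
  exact one_ne_zero h3

/-- The degree `1` part, if the ideal contains no linear forms. -/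
theorem dim_one (I : Ideal (Sx N)) (hI : ∀ F ∈ I, F.IsHomogeneous 1 → F = 0) :
    Module.finrank ℂ (gr I 1) = N + 1 := by
  have h1 : gr I 1 = Submodule.span ℂ
      (Set.range fun i : Fin (N + 1) => (Ideal.Quotient.mk I (X i) : Sx N ⧸ I)) := by
    unfold gr
    rw [homogeneousSubmodule_one_eq_span_X, Submodule.map_span, ← Set.range_comp]
    rfl
  rw [h1, finrank_span_eq_card]
  · exact Fintype.card_fin _
  · rw [Fintype.linearIndependent_iff]
    intro g hg i
    have h2 : Ideal.Quotient.mk I (∑ j, C (g j) * X j) = 0 := by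
      rw [← hg, map_sum]
      exact Finset.sum_congr rfl fun j _ => (smul_mk I (g j) (X j)).symm
    have h3 : (∑ j, C (g j) * X j : Sx N).IsHomogeneous 1 := by
      refine IsHomogeneous.sum _ _ _ fun j _ => ?_
      have h4 := (isHomogeneous_C (Fin (N + 1)) (g j)).mul (isHomogeneous_X ℂ j)
      rwa [zero_add] at h4
    have h4 := hI _ (Ideal.Quotient.eq_zero_iff_mem.1 h2) h3
    have h5 := congrArg (eval (Pi.single i (1 : ℂ))) h4
    rw [map_sum, map_zero] at h5
    rw [← h5, Finset.sum_eq_single i]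
    · rw [map_mul, eval_C, eval_X, Pi.single_eq_same, mul_one]
    · intro j _ hj
      rw [map_mul, eval_X, Pi.single_eq_of_ne hj, mul_zero]
    · intro h
      exact absurd (Finset.mem_univ i) h

/-- The ideals `I + (l_0, …, l_(k-1))`. -/
def Jk (I : Ideal (Sx N)) (l : Fin (n + 1) → Sx N) (k : ℕ) : Ideal (Sx N) :=
  I ⊔ Ideal.span (l '' {j | j.1 < k})

theorem Jk_zero (I : Ideal (Sx N)) (l : Fin (n + 1) → Sx N) : Jk I l 0 = I := by
  unfold Jk
  have h : {j : Fin (n + 1) | j.1 < 0} = ∅ := by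
    ext j
    simp
  rw [h, Set.image_empty, Ideal.span_empty, sup_bot_eq]

theorem Jk_last (I : Ideal (Sx N)) (l : Fin (n + 1) → Sx N) :
    Jk I l (n + 1) = I ⊔ Ideal.span (Set.range l) := by
  unfold Jk
  have h : {j : Fin (n + 1) | j.1 < n + 1} = Set.univ :=
    Set.eq_univ_of_forall fun j => j.2
  rw [h, Set.image_univ]

theorem Jk_const {I : Ideal (Sx N)} (hp : I.IsPrime) (hI : IsHom I) (l : Fin (n + 1) → Sx N)
    (hl : ∀ i, (l i).IsHomogeneous 1) (k : ℕ) : ∀ F ∈ Jk I l k, constantCoeff F = 0 := by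
  have h1 : Jk I l k ≤ RingHom.ker (constantCoeff : Sx N →+* ℂ) := by
    refine sup_le ?_ (Ideal.span_le.2 ?_)
    · intro F hF
      rw [RingHom.mem_ker]
      by_contra h
      have h2 := hI F hF 0
      rw [homogeneousComponent_zero] at h2
      refine hp.ne_top (Ideal.eq_top_of_isUnit_mem I h2 ?_)
      exact (isUnit_iff_ne_zero.2 h).map C
    · rintro _ ⟨j, _, rfl⟩
      change l j ∈ RingHom.ker (constantCoeff : Sx N →+* ℂ)
      rw [RingHom.mem_ker, constantCoeff_eq]
      exact (hl j).coeff_eq_zero (by simp)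
  intro F hF
  exact RingHom.mem_ker.1 (h1 hF)

theorem Jk_rec {I : Ideal (Sx N)} (hI : IsHom I) (l : Fin (n + 1) → Sx N) (hA : ACM I n s l)
    (k : ℕ) (hk : k < n + 1) (m : ℕ) :
    Module.finrank ℂ (gr (Jk I l (k + 1)) (m + 1)) + Module.finrank ℂ (gr (Jk I l k) m) =
      Module.finrank ℂ (gr (Jk I l k) (m + 1)) := by
  refine rec_succ (l ⟨k, hk⟩) (hA.lin _) ?_ ?_ (fun F hF => hA.reg ⟨k, hk⟩ F hF) ?_ m
  · refine sup_le_sup le_rfl (Ideal.span_mono (Set.image_mono fun j hj => ?_))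
    exact Nat.lt_succ_of_lt hj
  · exact Ideal.mem_sup_right (Ideal.subset_span ⟨⟨k, hk⟩, Nat.lt_succ_self k, rfl⟩)
  · intro m F hF hFJ
    obtain ⟨G, A, hG, _, hAh, hA0, hFA⟩ := GGenAux.dec hI l hA.lin {j | j.1 < k + 1} m F hF hFJ
    refine ⟨G + ∑ j ∈ Finset.univ.erase ⟨k, hk⟩, l j * A j, A ⟨k, hk⟩, ?_, hAh _, ?_⟩
    · refine Ideal.add_mem _ (Ideal.mem_sup_left hG) (Ideal.sum_mem _ fun j hj => ?_)
      by_cases hjk : j.1 < k
      · exact Ideal.mul_mem_right _ _ (Ideal.mem_sup_right (Ideal.subset_span ⟨j, hjk, rfl⟩))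
      · have h1 : j.1 ≠ k := fun h => (Finset.mem_erase.1 hj).1 (Fin.ext h)
        have h2 : j ∉ {j : Fin (n + 1) | j.1 < k + 1} := by
          intro h
          have h3 : j.1 < k + 1 := h
          omega
        rw [hA0 j h2, mul_zero]
        exact Ideal.zero_mem _
    · rw [hFA, ← Finset.add_sum_erase _ _ (Finset.mem_univ (⟨k, hk⟩ : Fin (n + 1)))]
      ring

theorem hpol_coeff (I : Ideal (Sx N)) (l : Fin (n + 1) → Sx N) (m : ℕ) :
    (hpol I n s l).coeff m =
      if m < s + 1 then (Module.finrank ℂ (gr (I ⊔ Ideal.span (Set.range l)) m) : ℤ) else 0 := by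
  unfold hpol
  rw [Polynomial.finset_sum_coeff]
  simp only [Polynomial.coeff_monomial]
  rw [Finset.sum_ite_eq']
  simp only [Finset.mem_range]

theorem ps_rec {a b : ℕ → ℕ} (h0 : b 0 = a 0) (h1 : ∀ m, b (m + 1) + a m = a (m + 1)) :
    (1 - PowerSeries.X) * ps a = ps b := by
  ext m
  rw [sub_mul, one_mul, map_sub]
  unfold ps
  rcases m with _ | m
  · rw [PowerSeries.coeff_zero_X_mul, PowerSeries.coeff_mk, PowerSeries.coeff_mk, sub_zero, h0]
  · rw [PowerSeries.coeff_succ_X_mul, PowerSeries.coeff_mk, PowerSeries.coeff_mk,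
      PowerSeries.coeff_mk, ← h1 m]
    push_cast
    ring

theorem gr_top {J : Ideal (Sx N)} (m : ℕ) (h : ∀ F : Sx N, F.IsHomogeneous m → F ∈ J) :
    Module.finrank ℂ (gr J m) = 0 := by
  have h1 : gr J m = ⊥ := by
    rw [eq_bot_iff]
    intro z hz
    obtain ⟨F, hF, rfl⟩ := (mem_gr J m z).1 hz
    exact Ideal.Quotient.eq_zero_iff_mem.2 (h F hF)
  rw [h1, finrank_bot]

end GHSAux

open GHSAux in
/-- The Hilbert series of a Cohen-Macaulay ring. -/
theorem gHS : S_GHS := by
  intro N n s c I l hN hp hI hlin hA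
  have hrec := Jk_rec hI l hA
  have hz : ∀ k, Module.finrank ℂ (gr (Jk I l k) 0) = 1 := fun k =>
    dim_zero _ (Jk_const hp hI l hA.lin k)
  have htop : ∀ m, s + 1 ≤ m → Module.finrank ℂ (gr (I ⊔ Ideal.span (Set.range l)) m) = 0 := by
    intro m hm
    obtain ⟨k, rfl⟩ := Nat.exists_eq_add_of_le hm
    exact gr_top _ (GGenAux.top_all _ s hA.top k)
  have hpow : ∀ k, k ≤ n + 1 → (1 - PowerSeries.X) ^ k *
      ps (fun m => Module.finrank ℂ (gr I m)) =
      ps (fun m => Module.finrank ℂ (gr (Jk I l k) m)) := by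
    intro k
    induction k with
    | zero =>
      intro _
      rw [pow_zero, one_mul, Jk_zero]
    | succ k ih =>
      intro hk
      rw [pow_succ', mul_assoc, ih (by omega)]
      exact ps_rec (by rw [hz, hz]) (fun m => hrec k (by omega) m)
  have hps : ps (fun m => Module.finrank ℂ (gr (Jk I l (n + 1)) m)) =
      ((hpol I n s l : Polynomial ℤ) : PowerSeries ℤ) := by
    ext m
    rw [Polynomial.coeff_coe, hpol_coeff, Jk_last]
    unfold ps
    rw [PowerSeries.coeff_mk]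
    split_ifs with hm
    · rfl
    · have h1 := htop m (by omega)
      simp only [h1, Nat.cast_zero]
  have hone : ∀ k, k ≤ n + 1 → Module.finrank ℂ (gr (Jk I l k) 1) + k = N + 1 := by
    intro k
    induction k with
    | zero =>
      intro _
      rw [Jk_zero, dim_one I hlin]
    | succ k ih =>
      intro hk
      have h1 := hrec k (by omega) 0
      rw [hz, zero_add] at h1
      have h2 := ih (by omega)
      omega
  have hc1 : (hpol I n s l).coeff 1 = c := by
    have h1 := hone (n + 1) le_rfl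
    rw [Jk_last] at h1
    have h2 : Module.finrank ℂ (gr (I ⊔ Ideal.span (Set.range l)) 1) = c := by omega
    rw [hpol_coeff]
    split_ifs with hm
    · rw [h2]
    · have h3 := htop 1 (by omega)
      rw [h2] at h3
      rw [h3]
      rfl
  have hc0 : (hpol I n s l).coeff 0 = 1 := by
    have h1 := hz (n + 1)
    rw [Jk_last] at h1
    rw [hpol_coeff, if_pos (by omega), h1]
    rfl
  have hnn : ∀ i, 0 ≤ (hpol I n s l).coeff i := by
    intro i
    rw [hpol_coeff]
    split_ifs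
    · exact Int.natCast_nonneg _
    · exact le_rfl
  refine ⟨?_, hc0, hc1, hnn, ?_, ?_⟩
  · unfold QP
    have h1 : ((1 - PowerSeries.X) ^ (N + 1) : PowerSeries ℤ) =
        (1 - PowerSeries.X) ^ c * (1 - PowerSeries.X) ^ (n + 1) := by
      rw [← pow_add]
      congr 1
      omega
    rw [h1, mul_assoc, hpow (n + 1) le_rfl, hps, Polynomial.coe_mul, Polynomial.coe_pow,
      Polynomial.coe_sub, Polynomial.coe_one, Polynomial.coe_X]
  · refine Polynomial.natDegree_le_iff_coeff_eq_zero.2 fun m hm => ?_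
    rw [hpol_coeff, if_neg (by omega)]
  · rw [Polynomial.eval_eq_sum_range]
    refine Finset.sum_pos' (fun i _ => ?_) ⟨0, Finset.mem_range.2 (Nat.succ_pos _), ?_⟩
    · rw [one_pow, mul_one]
      exact hnn i
    · rw [one_pow, mul_one, hc0]
      exact one_pos

end Pool.Agent.Lib.MP_776403_ag.SD
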