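import Pool.Agent.Lib.MP_776403_ag.SD.K.DefsS
import Pool.Agent.Lib.MP_776403_ag.SD.SpecL
import Pool.Agent.Lib.MP_776403_ag.SD.SpecB

/-!
# THEOREM H, part G: arithmetically Cohen-Macaulay varieties; lines from equations

Statements with complete proofs in the docstrings; `S_G…` is proved in `SD/G/….lean` (theorem `g…`).
-/

set_option autoImplicit false

open MvPolynomial

noncomputable section

namespace Pool.Agent.Lib.MP_776403_ag.SD

/-- `S / I` is Cohen-Macaulay of dimension `n + 1`, with Hilbert series `h(T) / (1 - T)^(n+1)`,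
`deg h ≤ s`: the linear forms `l_0, …, l_n` are a regular sequence modulo `I`, and all forms of
degree `s + 1` are in `I + (l_0, …, l_n)`. -/
structure ACM {N : ℕ} (I : Ideal (Sx N)) (n s : ℕ) (l : Fin (n + 1) → Sx N) : Prop where
  lin : ∀ i, (l i).IsHomogeneous 1
  reg : ∀ (i : Fin (n + 1)) (F : Sx N), l i * F ∈ I ⊔ Ideal.span (l '' {j | j < i}) →
    F ∈ I ⊔ Ideal.span (l '' {j | j < i})
  top : ∀ F : Sx N, F.IsHomogeneous (s + 1) → F ∈ I ⊔ Ideal.span (Set.range l)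

/-- The `h`-polynomial. -/
def hpol {N : ℕ} (I : Ideal (Sx N)) (n s : ℕ) (l : Fin (n + 1) → Sx N) : Polynomial ℤ :=
  ∑ i ∈ Finset.range (s + 1),
    Polynomial.monomial i (Module.finrank ℂ (gr (I ⊔ Ideal.span (Set.range l)) i) : ℤ)

/-- (GHS) The Hilbert series of a Cohen-Macaulay ring.

PROOF.  `I_k = I ⊔ span (l '' {j | j < k})` (`k ≤ n + 1`; homogeneous), `a_k(m) = finrank (gr I_k m)`.
The sequence `0 → gr I_k m → gr I_k (m+1) → gr I_(k+1) (m+1) → 0` (multiplication by `l_k`,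
injective by `reg`; the kernel of the second map: if `F` is a form of degree `m + 1` in
`I_k ⊔ (l_k)` then `F = G + l_k A` with `A` a form of degree `m`) is exact, so
`a_(k+1)(m+1) = a_k(m+1) - a_k(m)`, and `a_(k+1)(0) = a_k(0)`: `(1 - T) ps (a_k) = ps (a_(k+1))`.
`ps (a_(n+1))` is the polynomial `hpol`: `gr I_(n+1) m = 0` for `m ≥ s + 1` (`top`; a form of degree
`m ≥ s + 1` is a combination of forms of degree `s + 1`).  So `(1-T)^(n+1) ps (a_0) = hpol` and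
`QP N c a_0 hpol` for `c = N - n` (`N + 1 = c + (n + 1)`).  `I ≠ ⊤` (prime) and `I ⊔ (l) ≠ ⊤`
(homogeneous, no elements of degree `0`), so `h_0 = 1`; all coefficients are `≥ 0`, `h (1) ≥ 1`.
Coefficient `1` (if `s ≥ 1`): the `l_i` are linearly independent modulo `I` (`reg`: if
`l_i = ∑_(j<i) a_j l_j` modulo `I` then `l_i * 1 ∈ I_i`, `1 ∈ I_i`) and `I` contains no linear forms:
`N + 1 - (n + 1) = c`. If `s = 0` then all linear forms are in `I ⊔ (l)`, `c = 0`, and the coefficient is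
`0 = c`. -/
def S_GHS : Prop :=
  ∀ (N n s c : ℕ) (I : Ideal (Sx N)) (l : Fin (n + 1) → Sx N), N = n + c → I.IsPrime → IsHom I →
    (∀ F ∈ I, F.IsHomogeneous 1 → F = 0) → ACM I n s l →
    QP N c (fun k => Module.finrank ℂ (gr I k)) (hpol I n s l) ∧
    (hpol I n s l).coeff 0 = 1 ∧ (hpol I n s l).coeff 1 = c ∧
    (∀ i, 0 ≤ (hpol I n s l).coeff i) ∧ (hpol I n s l).natDegree ≤ s ∧
    0 < (hpol I n s l).eval 1

/-- (GGen) The ideal is generated in degrees `≤ s + 1`.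

PROOF.  Let `I' ≤ I` be the ideal generated by the forms of degree `≤ s + 1` in `I`.  By induction on
`m`: every form `F ∈ I` of degree `m` is in `I'`; let `m ≥ s + 2`.  Every monomial `μ` of degree `m` is
`X_k μ'`, `μ'` of degree `m - 1 ≥ s + 1`, `μ' ∈ I ⊔ (l)` (`top`): `μ' = G + ∑ l_i A_i` (components of degree
`m - 1`: `G ∈ I` a form of degree `m - 1`).  So `F = ∑_k X_k G_k + ∑_i l_i A_i`, `G_k ∈ I` forms of degree
`m - 1` (in `I'` by induction), `A_i` forms of degree `m - 1`.  CLAIM: if `∑_(i<k) l_i A_i ∈ I`, the `A_i`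
forms of degree `m - 1`, then it is `∑_(i<k) l_i B_i` with `B_i ∈ I` forms of degree `m - 1` (induction on
`k`: `l_(k-1) A_(k-1) ∈ I ⊔ (l_j, j < k - 1)`, so by `reg` and components
`A_(k-1) = B + ∑_(j<k-1) l_j C_j`, `B ∈ I` of degree `m - 1`, and
`∑_(i<k) l_i A_i = l_(k-1) B + ∑_(j<k-1) l_j (A_j + l_(k-1) C_j)`).  So `F ∈ I'`. -/
def S_GGen : Prop :=
  ∀ (N n s : ℕ) (I : Ideal (Sx N)) (l : Fin (n + 1) → Sx N), IsHom I → ACM I n s l →
    I ≤ Ideal.span {F | F ∈ I ∧ ∃ e ≤ s + 1, F.IsHomogeneous e}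

/-- (GReg) Regular functions are forms (depth `≥ 2`).

PROOF.  `f : IsReg I k`.  `𝔞 = {G | ∃ A, ∀ z ∈ zer I, z ≠ 0 → eval z G * f z = eval z A}` is an ideal,
contains `I`, and for every `y ∈ zer I`, `y ≠ 0`, some `Q` with `Q (y) ≠ 0`; so `zer 𝔞 ⊆ {0}`, and
`S_D6'`: `l_0^ρ, l_1^ρ ∈ 𝔞` for some `ρ ≥ 1`: `l_0^ρ f = A`, `l_1^ρ f = B` on the punctured cone; we may take
`A`, `B` forms of degree `ρ + k` (`f (a z) = a^k f (z)` from the local expressions, compare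
`homogeneousComponent`s; or: `A Q - l_0^ρ P` vanishes on the punctured cone, so it is in `I`, take its
component).  `l_1^ρ A - l_0^ρ B ∈ I` (`S_Null`).  LEMMA: if `l_1 x ∈ I ⊔ (l_0^ρ)` then `x ∈ I ⊔ (l_0^ρ)`:
induction on `ρ`: `ρ = 0` trivial; `x ∈ I ⊔ (l_0)` by `reg`, `x = i + l_0 x'`,
`l_0 (l_1 x' - l_0^(ρ-1) y) ∈ I`, so `l_1 x' ∈ I ⊔ (l_0^(ρ-1))` (`reg` for `l_0`), `x' ∈ I ⊔ (l_0^(ρ-1))`.
So `A ∈ I ⊔ (l_0^ρ)`, `A = i + l_0^ρ C`, `C` a form of degree `k`.  For `y ∈ zer I`, `y ≠ 0`, with local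
expression `f Q = P`, `Q (y) ≠ 0`: `l_0^ρ (P - Q C)` vanishes on the punctured cone, is in `I`, `l_0 ∉ I`
(`reg` for `l_0` and `F = 1` would give `1 ∈ I`), `I` prime: `P - Q C ∈ I`, `f (y) = C (y)`.
RegBound: linearly independent `f_i` give forms `C_i` of degree `k` whose images in `gr I k` are linearly
independent. -/
def S_GReg : Prop :=
  ∀ (N n s : ℕ) (I : Ideal (Sx N)) (l : Fin (n + 1) → Sx N), 1 ≤ n → I.IsPrime → IsHom I →
    (∃ y ∈ zer I, y ≠ 0) → ACM I n s l →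
    (∀ (k : ℕ) (f : Vx N → ℂ), IsReg I k f → ∃ C : Sx N, C.IsHomogeneous k ∧
      ∀ z ∈ zer I, z ≠ 0 → f z = eval z C) ∧
    ∀ (k r : ℕ) (f : Fin r → (Vx N → ℂ)), (∀ i, IsReg I k (f i)) → LinearIndependent ℂ f →
      r ≤ Module.finrank ℂ (gr I k)

/-- (GNe) The variety is not empty.

PROOF.  If `zer I ⊆ {0}` then `I` contains all forms of large degree (`S_D6'`), so all `X_j ∈ I` (prime),
contradiction to `l_0 ∉ I` (`reg` for `l_0`, `F = 1`; `I ≠ ⊤`). -/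
def S_GNe : Prop :=
  ∀ (N n s : ℕ) (I : Ideal (Sx N)) (l : Fin (n + 1) → Sx N), I.IsPrime → IsHom I →
    ACM I n s l → ∃ y ∈ zer I, y ≠ 0

/-- (GHci) Hilbert series of complete intersections.

PROOF.  `(1-T)^c h = ∏ (1 - T^(d_i))` and `QP N c f h` give `(1-T)^(N+1) ps f = ∏ (1 - T^(d_i))
= ∑_A (-1)^|A| T^(d_A)`, and `(1-T)^(-(N+1)) = ∑ binom (N + k) N T^k`; compare coefficients. -/
def S_GHci : Prop :=
  ∀ (N c : ℕ) (f : ℕ → ℕ) (h : Polynomial ℤ) (d : Fin c → ℕ), QP N c f h →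
    (1 - Polynomial.X) ^ c * h = ∏ i, (1 - Polynomial.X ^ (d i)) →
    ∀ k, (f k : ℤ) = hci d N k

/-- (GLoc) Local equations of small degree.

PROOF.  `Smooth` at `y`: `F⁰`, `h⁰`.  `W` = the span of the `grad (F⁰ i) y` (dimension `c`).  For `G ∈ I`:
`h⁰ G = ∑ a_i F⁰_i`, so `h⁰ (y) grad G (y) = ∑ a_i (y) grad F⁰_i (y) ∈ W`.  Each `F⁰_i` is `∑ b_j g_j`,
`g_j ∈ I` forms of degree `≤ e`, so `grad F⁰_i (y) = ∑ b_j (y) grad g_j (y)`: the gradients of the forms of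
degree `≤ e` in `I` span `W`; choose `c` of them, `F_i`, with independent gradients at `y`
(`exists_linearIndependent`).  `h⁰ F_i = ∑_j a_(ij) F⁰_j`; `h⁰ (y) grad F_i (y) = ∑ a_(ij)(y) grad F⁰_j (y)`,
both families are independent, so `det (a_(ij)) (y) ≠ 0`, and `det (a) F⁰_j ∈ (F)` (adjugate), so
`h' = h⁰ det (a)` satisfies `h' G ∈ (F)` for `G ∈ I`.  The set `{h | h I ≤ (F)}` is a homogeneous ideal
(`I`, `(F)` homogeneous): take a component `h` of `h'` with `h (y) ≠ 0`. -/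
def S_GLoc : Prop :=
  ∀ (N c e : ℕ) (I : Ideal (Sx N)), IsHom I → Smooth I c →
    I ≤ Ideal.span {F | F ∈ I ∧ ∃ k ≤ e, F.IsHomogeneous k} →
    ∀ y ∈ zer I, y ≠ 0 → ∃ (F : Fin c → Sx N) (f : Fin c → ℕ) (h : Sx N) (g : ℕ),
      (∀ i, F i ∈ I ∧ (F i).IsHomogeneous (f i) ∧ f i ≤ e) ∧ h.IsHomogeneous g ∧
      eval y h ≠ 0 ∧ LinearIndependent ℂ (fun i => grad (F i) y) ∧
      ∀ G ∈ I, h * G ∈ Ideal.span (Set.range F)

/-- (GCone) The cone of lines through a point, from equations.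

PROOF.  As for `S_CnF` (`SD/L/SpecC.lean`).  `λ` a vector with `∑ λ_i x_i = 1`, `ℓ = ∑ C λ_i X_i`; `J₀` =
ideal generated by the `(linS x (F i)).coeff (j + 1)`, `i : Fin c`, `j : Fin (f i)`, and `ℓ`:
`∑ f i + 1` generators, homogeneous of positive degrees, zero at `0`.  `S_Krull`: a homogeneous prime
`P₀ ≥ J₀`, `P₀ ≤ ptI 0`, with `N - ∑ f i` algebraically independent elements of `S / P₀`.  For
`v₀ ∈ zer P₀`: `ℓ (v₀) = 0`; `lin x v₀ (F i) = 0` (constant coefficient `F i (x) = 0`, coefficients above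
`f i` vanish); for `G ∈ I`: `h G = ∑ a_i F_i`, so `lin x v₀ h * lin x v₀ G = 0` and
`lin x v₀ h ≠ 0` (value `h (x) ≠ 0` at `0`): `lin x v₀ G = 0`; so `s x + t v₀ ∈ zer I` (`S_LinB`, components).
`Z = {v₀ + s x}`, `φ : S → (S / P₀)[s]`, `X_i ↦ C (mk X_i) + C (x_i) s`, `P = ker φ`: as in `S_CnF`: `P` is
prime, homogeneous, the ideal of `Z`; `zer P` is stable under `v ↦ v + s x`; for `G ∈ I` the polynomials
`v ↦ G (s x + t v)` vanish on `Z`, so they are in `P` and vanish on `zer P` (`s = 0`, `t = 1`: `I ≤ P`);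
`S / P ≅ (S / P₀)[s]`, `S_TB`: `DimGe P (N + 1 - ∑ f i)`. -/
def S_GCone : Prop :=
  ∀ (N c : ℕ) (I : Ideal (Sx N)), I.IsPrime → IsHom I → ∀ x ∈ zer I, x ≠ 0 →
    ∀ (F : Fin c → Sx N) (f : Fin c → ℕ) (h : Sx N),
    (∀ i, F i ∈ I ∧ (F i).IsHomogeneous (f i)) → eval x h ≠ 0 →
    (∀ G ∈ I, h * G ∈ Ideal.span (Set.range F)) →
    ∃ P : Ideal (Sx N), P.IsPrime ∧ IsHom P ∧ I ≤ P ∧ DimGe P (N + 1 - ∑ i, f i) ∧
      (∀ v ∈ zer P, ∀ s : ℂ, v + s • x ∈ zer P) ∧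
      ∀ v ∈ zer P, ∀ s t : ℂ, s • x + t • v ∈ zer I

/-- (GAcm) The cones of lines on an arithmetically Cohen-Macaulay variety.

PROOF (S_GGen, S_GLoc, S_GCone, S_Mono).  `e = s + 1`, `∑ f i ≤ c (s + 1)`.  Covered: for
`c (s + 1) + 2 ≤ N + 1` the prime `P` has two independent coordinates, so `zer P` is not contained in the
line `ℂ x` (otherwise all `x_i X_j - x_j X_i ∈ P` by `S_Null`, and any two coordinates are dependent
modulo `P`): take `v ∈ zer P` not in `ℂ x`. -/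
def S_GAcm : Prop :=
  ∀ (N n s c : ℕ) (I : Ideal (Sx N)) (l : Fin (n + 1) → Sx N), I.IsPrime → IsHom I →
    Smooth I c → ACM I n s l →
    (∀ x ∈ zer I, x ≠ 0 → ∃ P : Ideal (Sx N), P.IsPrime ∧ IsHom P ∧ I ≤ P ∧
      DimGe P (N + 1 - c * (s + 1)) ∧ (∀ v ∈ zer P, ∀ s : ℂ, v + s • x ∈ zer P) ∧
      ∀ v ∈ zer P, ∀ s t : ℂ, s • x + t • v ∈ zer I) ∧
    (c * (s + 1) + 1 ≤ N → Covered I)

end Pool.Agent.Lib.MP_776403_ag.SD
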