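import Pool.Agent.Lib.MP_776403_ag.SD.G.Spec

/-!
# THEOREM H, part G: every line is contained in a large cone of lines

The statements `S_GCone`, `S_GAcm` of `Spec.lean` with a prescribed line.
-/

set_option autoImplicit false

open MvPolynomial

noncomputable section

namespace Pool.Agent.Lib.MP_776403_ag.SD

/-- (GCone2) The cone of lines through a point, containing a prescribed line (`v₁ = 0` is allowed).

PROOF.  As for `S_GCone` (`Spec.lean`), but `S_Krull` at the point `z = v₁ - λ(v₁) x` (`λ(x) = 1`) instead of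
`0`: `z` is a zero of `ℓ`, and of the `(linS x (F i)).coeff (j + 1)`, because
`F i (x + t z) = F i ((1 - t λ(v₁)) x + t v₁) = 0` (`F i ∈ I`).  So `P₀ ≤ ptI z` and
`v₁ = z + λ(v₁) x ∈ Z ⊆ zer P`. -/
def S_GCone2 : Prop :=
  ∀ (N c : ℕ) (I : Ideal (Sx N)), I.IsPrime → IsHom I → ∀ x ∈ zer I, x ≠ 0 →
    ∀ (F : Fin c → Sx N) (f : Fin c → ℕ) (h : Sx N),
    (∀ i, F i ∈ I ∧ (F i).IsHomogeneous (f i)) → eval x h ≠ 0 →
    (∀ G ∈ I, h * G ∈ Ideal.span (Set.range F)) →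
    ∀ v₁ : Vx N, (∀ s t : ℂ, s • x + t • v₁ ∈ zer I) →
    ∃ P : Ideal (Sx N), P.IsPrime ∧ IsHom P ∧ I ≤ P ∧ v₁ ∈ zer P ∧
      DimGe P (N + 1 - ∑ i, f i) ∧ (∀ v ∈ zer P, ∀ s : ℂ, v + s • x ∈ zer P) ∧
      ∀ v ∈ zer P, ∀ s t : ℂ, s • x + t • v ∈ zer I

/-- (GAcm2) The cones of lines on an arithmetically Cohen-Macaulay variety.

PROOF (S_GGen, S_GLoc, S_GCone2, S_Mono, S_Null).  `e = s + 1`, `∑ f i ≤ c (s + 1)`.  Covered: take
`v₁ = 0`; for `c (s + 1) + 2 ≤ N + 1` the prime `P` has two independent coordinates, so `zer P` is not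
contained in the line `ℂ x` (otherwise all `x_i X_j - x_j X_i ∈ P` by `S_Null`, and any two coordinates
are dependent modulo `P`): take `v ∈ zer P` not in `ℂ x`. -/
def S_GAcm2 : Prop :=
  ∀ (N n s c : ℕ) (I : Ideal (Sx N)) (l : Fin (n + 1) → Sx N), I.IsPrime → IsHom I →
    Smooth I c → ACM I n s l →
    (∀ x ∈ zer I, x ≠ 0 → ∀ v₁ : Vx N, (∀ s t : ℂ, s • x + t • v₁ ∈ zer I) →
      ∃ P : Ideal (Sx N), P.IsPrime ∧ IsHom P ∧ I ≤ P ∧ v₁ ∈ zer P ∧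
      DimGe P (N + 1 - c * (s + 1)) ∧ (∀ v ∈ zer P, ∀ s : ℂ, v + s • x ∈ zer P) ∧
      ∀ v ∈ zer P, ∀ s t : ℂ, s • x + t • v ∈ zer I) ∧
    (c * (s + 1) + 1 ≤ N → Covered I)

end Pool.Agent.Lib.MP_776403_ag.SD
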